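import Pool.Agent.H620R2.Gauge.C
import Pool.Agent.H620R2.Gauge.Upper
import Pool.Agent.H620R2.GaugeR.Seq

/-!
# Coding the languages of `PSPACE` with few words of each length into the oracle
-/

set_option autoImplicit false

namespace Pool.Agent.W2helper26.DT

open Pool.Agent.NPC Pool.Agent.H622R2 Pool.Agent.H620R2.Gauge Filter
open Pool.Agent.H620R2.Gauge.CC

/-- the number of the words of length `n` in the language `L` -/
noncomputable def census (L : Set (List Bool)) (n : ℕ) : ℕ := {x | x ∈ L ∧ x.length = n}.ncard

theorem finite_length (P : List Bool → Prop) (n : ℕ) : {x : List Bool | P x ∧ x.length = n}.Finite :=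
  (List.finite_length_eq Bool n).subset fun _ hx => hx.2

/-- a language which agrees with a language of `P` on the long words is in `P` -/
theorem isP_of_eventually {A : Oracle} {L L' : Set (List Bool)} (h : IsP A L') (n₀ : ℕ)
    (hL : ∀ x : List Bool, n₀ ≤ x.length → (x ∈ L ↔ x ∈ L')) : IsP A L := by
  classical
  obtain ⟨V, hV, hL'⟩ := h
  -- the table
  have hT : ∀ n : ℕ, ∃ T : List Bool → Bool, Poly T ∧ ∀ x : List Bool, x.length < n →
      (T x = true ↔ x ∈ L) := by
    intro n
    have hfin : {x : List Bool | x ∈ L ∧ x.length < n}.Finite :=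
      (List.finite_length_lt Bool n).subset fun _ hx => hx.2
    obtain ⟨S, hS⟩ := hfin.exists_finset_coe
    have hP : ∀ S : Finset (List Bool), ∃ T : List Bool → Bool, Poly T ∧
        ∀ x, T x = true ↔ x ∈ S := by
      intro S
      induction S using Finset.induction_on with
      | empty => exact ⟨fun _ => false, NPC.Poly.const false, by simp⟩
      | insert a S _ ih =>
        obtain ⟨T, hT, hTS⟩ := ih
        refine ⟨fun x => if x = a then true else T x, ?_, fun x => ?_⟩
        · exact NPC.Poly.ite (NPC.Poly.decide_eq Poly.id (NPC.Poly.const a)) (NPC.Poly.const true) hT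
        · by_cases hx : x = a
          · simp [hx]
          · simp [hx, hTS]
    obtain ⟨T, hT, hTS⟩ := hP S
    refine ⟨T, hT, fun x hx => ?_⟩
    rw [hTS, ← Finset.mem_coe, hS]
    exact ⟨fun h => h.1, fun h => ⟨h, hx⟩⟩
  obtain ⟨T, hT, hTL⟩ := hT n₀
  let F : List Bool → List Bool := fun z =>
    if (unpair z).1.length < n₀ then [T (unpair z).1] else (unpair z).2
  have hF : Poly F := by
    have h1 : Poly (fun z : List Bool => (unpair z).1) := Poly.fst poly_unpair
    have h2 : Poly (fun z : List Bool => (unpair z).2) := Poly.snd poly_unpair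
    exact NPC.Poly.ite (NPC.Poly.decide_lt (NPC.Poly.length h1) (NPC.Poly.const n₀))
      (NPC.Poly.cons (hT.comp h1) (NPC.Poly.const [])) h2
  refine ⟨fun x => F (pairBits x (V x)), ?_, fun x => ?_⟩
  · have h1 := IsFP.comp (A := A) (IsFP.of_poly hF) (IsFP.pair (IsFP.of_poly Poly.id) hV)
    exact h1
  · show x ∈ L ↔ F (pairBits x (V x)) = [true]
    simp only [F, unpair_pairBits]
    by_cases hx : x.length < n₀
    · rw [if_pos hx, ← hTL x hx]
      simp
    · rw [if_neg hx, hL x (by omega), hL']

theorem exists_coding_sparse (s : ℕ → ℕ) (K : ℕ) :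
    ∃ (R : ℕ → Polynomial ℕ) (Φ : Oracle → Oracle),
    (∀ e n, (n + e + 1) ^ K ≤ (R e).eval n) ∧
    (∀ B y, (∀ e x, y ≠ code R e x) → Φ B y = B y) ∧
    (∀ B e n, {x : List Bool | Φ B (code R e x) = true ∧ x.length = n}.ncard ≤ s n) ∧
    ∀ B L, IsPSPACE (Φ B) L → IsP (Φ B) {x | x ∈ L ∧ census L x.length ≤ s x.length} := by
  classical
  obtain ⟨g, hg⟩ := exists_enum
  choose b hb using fun e : ℕ => act_length (g e).1 (g e).2
  set R : ℕ → Polynomial ℕ := fun e => b e + (Polynomial.X + Polynomial.C (e + 1)) ^ K with hR
  set V : ℕ → Oracle → List Bool → Prop := fun e A x =>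
    Acc (g e).1 (cut ((b e).eval x.length) A) x with hV
  set W : ℕ → Oracle → List Bool → Prop := fun e A x =>
    V e A x ∧ {y | V e A y ∧ y.length = x.length}.ncard ≤ s x.length with hW
  have hRe : ∀ e n, (R e).eval n = (b e).eval n + (n + (e + 1)) ^ K := by
    intro e n
    rw [hR]
    simp only [Polynomial.eval_add, Polynomial.eval_pow, Polynomial.eval_X, Polynomial.eval_C]
  have hlocV : ∀ e A A' x y, y.length = x.length →
      (∀ z : List Bool, z.length < (code R e x).length → A z = A' z) →
      (V e A y ↔ V e A' y) := by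
    intro e A A' x y hy h
    have hcut : cut ((b e).eval y.length) A = cut ((b e).eval y.length) A' := by
      funext z
      unfold cut
      split_ifs with hz
      · apply h
        have h1 := lt_length_code R e x
        have h2 := hRe e x.length
        rw [hy] at hz
        omega
      · rfl
    simp only [hV, hcut]
  have hloc : ∀ e A A' x, (∀ z : List Bool, z.length < (code R e x).length → A z = A' z) →
      (W e A x ↔ W e A' x) := by
    intro e A A' x h
    have h1 : {y | V e A y ∧ y.length = x.length} = {y | V e A' y ∧ y.length = x.length} := by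
      ext y
      constructor
      · rintro ⟨h2, h3⟩
        exact ⟨(hlocV e A A' x y h3 h).1 h2, h3⟩
      · rintro ⟨h2, h3⟩
        exact ⟨(hlocV e A A' x y h3 h).2 h2, h3⟩
    simp only [hW, h1, hlocV e A A' x x rfl h]
  refine ⟨R, Phi R W, ?_, fun B y h => Phi_not R W B y h, ?_, ?_⟩
  · intro e n
    rw [hRe, add_assoc n e 1]
    exact Nat.le_add_left _ _
  · intro B e n
    have h1 : {x : List Bool | Phi R W B (code R e x) = true ∧ x.length = n} =
        {x | W e (Phi R W B) x ∧ x.length = n} := by
      ext x
      simp only [Set.mem_ofPred_eq, Phi_code R W B hloc e x]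
    rw [h1]
    by_cases h2 : {y | V e (Phi R W B) y ∧ y.length = n}.ncard ≤ s n
    · refine le_trans (Set.ncard_le_ncard ?_ (finite_length _ n)) h2
      rintro x ⟨h3, h4⟩
      exact ⟨h3.1, h4⟩
    · have h3 : {x | W e (Phi R W B) x ∧ x.length = n} = ∅ := by
        ext x
        simp only [Set.mem_ofPred_eq, Set.mem_empty_iff_false, iff_false]
        rintro ⟨h3, h4⟩
        have h5 := h3.2
        rw [h4] at h5
        exact h2 h5
      rw [h3, Set.ncard_empty]
      exact Nat.zero_le _
  · rintro B L ⟨M, p, hM⟩
    obtain ⟨e, he⟩ := hg (M, p)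
    have hLV : ∀ x, x ∈ L ↔ V e (Phi R W B) x := by
      intro x
      change x ∈ L ↔ Acc (g e).1 (cut ((b e).eval x.length) (Phi R W B)) x
      have hbe := hb e
      rw [he] at hbe ⊢
      obtain ⟨hM1, s, z, hs, hz, hL⟩ := hM x
      have hcong : ∀ s, M.Reach (cut ((b e).eval x.length) (Phi R W B)) x s ↔
          M.Reach (Phi R W B) x s := by
        refine reach_congr (fun s => s.length ≤ p.eval x.length) hM1 ?_
        intro s q h1 h2
        have h3 := hbe x s h1
        rw [h2, List.length_cons] at h3
        unfold cut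
        rw [if_pos (by omega)]
      constructor
      · intro hx
        refine ⟨s, (hcong s).2 hs, ?_⟩
        rw [hz, hL.1 hx]
      · rintro ⟨t, ht, ht2⟩
        have hst := reach_unique hs ((hcong t).1 ht) ⟨_, hz⟩ ⟨_, ht2⟩
        rw [hst, ht2] at hz
        simp only [List.cons.injEq, true_and] at hz
        exact hL.2 hz.symm
    have hred : IsP (Phi R W B) {x | Phi R W B (code R e x) = true} :=
      isP_of_reduces ⟨fun x => code R e x, polyTime_of_poly_list (poly_code R e), fun x => Iff.rfl⟩
    have heq : {x | Phi R W B (code R e x) = true} =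
        {x | x ∈ L ∧ census L x.length ≤ s x.length} := by
      ext x
      rw [Set.mem_ofPred_eq, Phi_code R W B hloc e x, Set.mem_ofPred_eq, hLV x]
      have h1 : census L x.length = {y | V e (Phi R W B) y ∧ y.length = x.length}.ncard := by
        unfold census
        congr 1
        ext y
        simp only [Set.mem_ofPred_eq, hLV y]
      rw [h1]
    rw [← heq]
    exact hred

/-- the languages which have few words of almost all lengths -/
theorem isP_of_sparse {A : Oracle} {s : ℕ → ℕ} {L : Set (List Bool)}
    (h : IsP A {x | x ∈ L ∧ census L x.length ≤ s x.length})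
    (hs : ∀ᶠ n in atTop, census L n ≤ s n) : IsP A L := by
  obtain ⟨n₀, hn₀⟩ := eventually_atTop.1 hs
  exact isP_of_eventually h n₀ fun x hx => ⟨fun h => ⟨h, hn₀ _ hx⟩, fun h => h.1⟩

end Pool.Agent.W2helper26.DT
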