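import Pool.Agent.W2helper57.PPH.Lang
import Pool.Agent.W2helper57.PPH.TakeDrop
import Pool.Agent.H529R3.Lev.Precomp
import Pool.Agent.W2helper26.DT.COD

/-!
# Padding: languages with few words in `PP` and outside the polynomial hierarchy
-/

set_option autoImplicit false

namespace Pool.Agent.W2helper26.DT

open Pool.Agent.NPC Pool.Agent.H622R2 Pool.Agent.H620R2.Gauge Filter
open H529R3.Lev

/-- the padded word -/
def pad (k : ℕ) (x : List Bool) : List Bool := pairBits x (List.replicate (x.length ^ k) true)

/-- the length of the padded words -/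
noncomputable def pl (k : ℕ) : Polynomial ℕ := Polynomial.C 2 * Polynomial.X + Polynomial.C 1 + Polynomial.X ^ k

theorem eval_pl (k n : ℕ) : (pl k).eval n = 2 * n + 1 + n ^ k := by
  simp [pl]

theorem length_pad (k : ℕ) (x : List Bool) : (pad k x).length = (pl k).eval x.length := by
  rw [eval_pl, pad, length_pairBits, List.length_replicate]

theorem unpair_pad (k : ℕ) (x : List Bool) : (unpair (pad k x)).1 = x := by
  rw [pad, unpair_pairBits]

theorem poly_pad (k : ℕ) : Poly (pad k) := by
  have h1 : UPoly (fun x : List Bool => x.length) := UPoly.length Poly.id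
  have h2 : UPoly (fun x : List Bool => x.length ^ k) := by
    have := h1.eval (Polynomial.X ^ k)
    simpa using this
  have h3 : Poly (fun x : List Bool => List.replicate (x.length ^ k) true) :=
    (NPC.Poly.map (F := fun _ _ => true) h2 (NPC.Poly.const true)).congr fun x => by simp
  exact poly_pairBits Poly.id h3

/-- the padded language -/
def padL (k : ℕ) (L : Set (List Bool)) : Set (List Bool) :=
  {y | y = pad k (unpair y).1 ∧ (unpair y).1 ∈ L}

theorem mem_padL (k : ℕ) (L : Set (List Bool)) (x : List Bool) : pad k x ∈ padL k L ↔ x ∈ L := by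
  unfold padL
  rw [Set.mem_ofPred_eq, unpair_pad]
  exact ⟨fun h => h.2, fun h => ⟨rfl, h⟩⟩

/-- the random bits which are not used do not matter -/
theorem outPr_take (V : List Bool → List Bool) (V' : List Bool → List Bool) (x y z : List Bool)
    {m m' : ℕ} (hm : m ≤ m')
    (h : ∀ w : List Bool, w.length = m' → V' (pairBits w y) = V (pairBits (w.take m) x)) :
    outPr V' m' y z = outPr V m x z := by
  classical
  obtain ⟨d, rfl⟩ : ∃ d, m' = m + d := ⟨m' - m, by omega⟩
  unfold outPr
  have e : {w : Fin (m + d) → Bool // V' (pairBits (List.ofFn w) y) = z} ≃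
      {w : Fin m → Bool // V (pairBits (List.ofFn w) x) = z} × (Fin d → Bool) := by
    refine (Equiv.subtypeEquiv (Fin.appendEquiv m d).symm (q := fun ab =>
      V (pairBits (List.ofFn ab.1) x) = z) ?_).trans (Equiv.prodSubtypeFstEquivSubtypeProd (p := fun w : Fin m → Bool => V (pairBits (List.ofFn w) x) = z))
    intro w
    obtain ⟨ab, rfl⟩ := (Fin.appendEquiv m d).surjective w
    rw [Equiv.symm_apply_apply]
    have h1 : List.ofFn ((Fin.appendEquiv m d) ab) = List.ofFn ab.1 ++ List.ofFn ab.2 := by
      show List.ofFn (Fin.append ab.1 ab.2) = _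
      rw [List.ofFn_fin_append]
    rw [h _ (by simp), h1, List.take_left' (by simp)]
  rw [Nat.card_congr e, Nat.card_prod, Nat.card_eq_fintype_card (α := Fin d → Bool),
    Fintype.card_fun, Fintype.card_bool, Fintype.card_fin, pow_add]
  push_cast
  rw [mul_div_mul_right _ _ (by positivity)]

theorem isPP_padL {A : Oracle} {L : Set (List Bool)} (h : IsPP A L) (k : ℕ) :
    IsPP A (padL k L) := by
  classical
  obtain ⟨V, p, hV, hL⟩ := h
  -- the argument for `V`
  let g : List Bool → List Bool := fun z =>
    pairBits ((unpair z).1.take (p.eval (unpair (unpair z).2).1.length)) (unpair (unpair z).2).1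
  have h1 : Poly (fun z : List Bool => (unpair z).1) := Poly.fst poly_unpair
  have h2 : Poly (fun z : List Bool => (unpair z).2) := Poly.snd poly_unpair
  have h3 : Poly (fun z : List Bool => (unpair (unpair z).2).1) := h1.comp h2
  have hg : Poly g := poly_pairBits (Pool.Agent.W2helper57.PPH.poly_take h1 ((UPoly.length h3).eval p).toPoly) h3
  -- the final answer
  let F : List Bool → List Bool := fun u =>
    if (unpair (unpair u).1).2 = pad k (unpair (unpair (unpair u).1).2).1 then (unpair u).2
    else [false]
  have h4 : Poly (fun u : List Bool => (unpair (unpair u).1).2) := h2.comp h1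
  have h5 : Poly (fun u : List Bool => (unpair (unpair (unpair u).1).2).1) := h1.comp h4
  have hF : Poly F := NPC.Poly.ite (NPC.Poly.decide_eq h4 ((poly_pad k).comp h5)) h2
    (NPC.Poly.const _)
  refine ⟨fun z => F (pairBits z (V (g z))), p, ?_, fun y => ?_⟩
  · exact IsFP.comp (IsFP.of_poly hF) (IsFP.pair (IsFP.of_poly Poly.id) (hV.precomp hg))
  · by_cases hy : y = pad k (unpair y).1
    · obtain ⟨x, hx⟩ : ∃ x, y = pad k x := ⟨_, hy⟩
      subst hx
      have hlen : p.eval x.length ≤ p.eval (pad k x).length := by
        apply eval_mono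
        rw [length_pad, eval_pl]
        omega
      have hkey : ∀ b : List Bool, outPr (fun z => F (pairBits z (V (g z))))
          (p.eval (pad k x).length) (pad k x) b = outPr V (p.eval x.length) x b := by
        intro b
        refine outPr_take V _ x (pad k x) b hlen fun w _ => ?_
        simp only [F, g, unpair_pairBits, unpair_pad, if_true]
      rw [hkey, hkey, mem_padL]
      exact hL x
    · have hno : y ∉ padL k L := fun h => hy h.1
      refine ⟨fun h => absurd h hno, fun _ => ?_⟩
      have hall : ∀ w : List Bool, F (pairBits (pairBits w y) (V (g (pairBits w y)))) = [false] := by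
        intro w
        simp only [F, unpair_pairBits]
        rw [if_neg hy]
      unfold outPr
      have h6 : Nat.card {w : Fin (p.eval y.length) → Bool //
          (fun z => F (pairBits z (V (g z)))) (pairBits (List.ofFn w) y) = [false]} =
          2 ^ p.eval y.length := by
        rw [Nat.card_congr (Equiv.subtypeUnivEquiv (fun w => hall _)), Nat.card_eq_fintype_card,
          Fintype.card_fun, Fintype.card_bool, Fintype.card_fin]
      rw [h6]
      push_cast
      rw [div_self (by positivity)]
      norm_num

theorem isPHpoly_of_padL {A : Oracle} {L : Set (List Bool)} (k : ℕ)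
    (h : IsPHpoly A (padL k L)) : IsPHpoly A L := by
  obtain ⟨L', hh, q, ⟨V, p, j, hV, hL'⟩, hq, hL⟩ := h
  let question : List Bool → List Bool := fun z => pairBits (pad k (unpair z).1) (unpair z).2
  have hqu : Poly question := poly_pairBits ((poly_pad k).comp (Poly.fst poly_unpair))
    (Poly.snd poly_unpair)
  let p' : Polynomial ℕ := p.comp (Polynomial.C 2 * pl k + Polynomial.C 1 + Polynomial.X)
  refine ⟨{y | Quant (p'.eval y.length) (fun z => V (truncG p question j z).2) j true y},
    fun n => hh ((pl k).eval n), q.comp (pl k),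
    ⟨_, p', j, hV.precomp (Poly.snd (poly_truncG p hqu j)), fun x => Iff.rfl⟩,
    fun n => ?_, fun x => ?_⟩
  · rw [Polynomial.eval_comp]
    exact hq _
  · rw [Set.mem_ofPred_eq]
    set a := hh ((pl k).eval x.length) with ha
    have h0 : question (pairBits x a) = pairBits (pad k x) a := by
      simp only [question, unpair_pairBits]
    have h2 : p.eval (question (pairBits x a)).length ≤ p'.eval (pairBits x a).length := by
      simp only [p', Polynomial.eval_comp, Polynomial.eval_add, Polynomial.eval_mul,
        Polynomial.eval_C, Polynomial.eval_X]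
      apply eval_mono
      rw [h0, length_pairBits, length_pad]
      have h5 : (pl k).eval x.length ≤ (pl k).eval (pairBits x a).length := by
        apply eval_mono
        rw [length_pairBits]
        omega
      have h6 : a.length ≤ (pairBits x a).length := by
        rw [length_pairBits]
        omega
      omega
    have h3 := quant_truncG p question V h2 j 0 true (pairBits x a) (question (pairBits x a)) rfl
    rw [zero_add] at h3
    rw [← h3, ← hL', h0, ← mem_padL k L x, hL (pad k x), length_pad]

theorem census_padL (L : Set (List Bool)) {k : ℕ} {ε : ℝ} (hk : 1 ≤ ε * k) (n : ℕ) :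
    (census (padL k L) n : ℝ) ≤ 2 ^ ((n : ℝ) ^ ε) := by
  classical
  have hk0 : (0 : ℝ) < k := by
    rcases Nat.eq_zero_or_pos k with h | h
    · subst h; simp at hk; linarith
    · exact_mod_cast h
  have hε : 0 < ε := by
    by_contra h
    push Not at h
    nlinarith
  by_cases hne : ∃ x : List Bool, (pad k x).length = n
  · obtain ⟨x₀, hx₀⟩ := hne
    rw [length_pad, eval_pl] at hx₀
    have h1 : census (padL k L) n ≤ 2 ^ x₀.length := by
      unfold census
      have hfin : {x : List Bool | x.length = x₀.length}.Finite := List.finite_length_eq Bool _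
      have hcard : {x : List Bool | x.length = x₀.length}.ncard = 2 ^ x₀.length := by
        have e : {x : List Bool | x.length = x₀.length} ≃ List.Vector Bool x₀.length :=
          Equiv.refl _
        rw [Set.ncard, Set.encard, ENat.card_congr e, ENat.card_eq_coe_fintype_card,
          card_vector, Fintype.card_bool]
        rfl
      rw [← hcard]
      refine Set.ncard_le_ncard_of_injOn (fun y => (unpair y).1) ?_ ?_ hfin
      · rintro y ⟨⟨h2, _⟩, h3⟩
        show (unpair y).1.length = x₀.length
        rw [h2, length_pad, eval_pl] at h3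
        by_contra hne
        rcases Nat.lt_or_gt_of_ne hne with h4 | h4
        · have := Nat.pow_le_pow_left h4.le k
          omega
        · have := Nat.pow_le_pow_left h4.le k
          omega
      · rintro y ⟨⟨h2, _⟩, _⟩ y' ⟨⟨h2', _⟩, _⟩ h
        rw [h2, h2']
        exact congrArg (pad k) h
    have h2 : (x₀.length : ℝ) ≤ (n : ℝ) ^ ε := by
      have hn1 : (1 : ℝ) ≤ n := by
        have : 1 ≤ n := by omega
        exact_mod_cast this
      have h3 : ((x₀.length : ℝ)) ^ k ≤ n := by
        have : x₀.length ^ k ≤ n := by omega
        exact_mod_cast this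
      calc (x₀.length : ℝ) = (((x₀.length : ℝ)) ^ k) ^ ((1 : ℝ) / k) := by
            rw [← Real.rpow_natCast, ← Real.rpow_mul (by positivity)]
            rw [mul_one_div_cancel hk0.ne', Real.rpow_one]
        _ ≤ (n : ℝ) ^ ((1 : ℝ) / k) := Real.rpow_le_rpow (by positivity) h3 (by positivity)
        _ ≤ (n : ℝ) ^ ε := by
            apply Real.rpow_le_rpow_of_exponent_le hn1
            rw [div_le_iff₀ hk0]
            exact hk
    calc (census (padL k L) n : ℝ) ≤ ((2 ^ x₀.length : ℕ) : ℝ) := by exact_mod_cast h1
      _ = 2 ^ (x₀.length : ℝ) := by rw [Real.rpow_natCast]; push_cast; rfl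
      _ ≤ 2 ^ ((n : ℝ) ^ ε) := Real.rpow_le_rpow_of_exponent_le (by norm_num) h2
  · have h1 : census (padL k L) n = 0 := by
      unfold census
      rw [Set.ncard_eq_zero (finite_length _ n)]
      ext y
      simp only [Set.mem_ofPred_eq, Set.mem_empty_iff_false, iff_false]
      rintro ⟨h2, h3⟩
      exact hne ⟨_, h2.1 ▸ h3⟩
    rw [h1]
    push_cast
    positivity

/-- The languages outside can be made sparser by padding. -/
theorem sparser {A : Oracle} {L : Set (List Bool)} (h1 : IsPP A L) (h2 : ¬ IsPHpoly A L)
    (ε : ℝ) (hε : 0 < ε) : ∃ L', IsPP A L' ∧ ¬ IsPHpoly A L' ∧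
      ∀ n : ℕ, (census L' n : ℝ) ≤ 2 ^ ((n : ℝ) ^ ε) := by
  obtain ⟨k, hk⟩ := exists_nat_gt (1 / ε)
  rw [div_lt_iff₀ hε] at hk
  exact ⟨padL k L, isPP_padL h1 k, fun h => h2 (isPHpoly_of_padL k h),
    census_padL L (by linarith)⟩

end Pool.Agent.W2helper26.DT
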