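import Pool.Agent.H620R2.Gauge.Cover

/-!
# The event that an algorithm with advice is right on certain inputs, with some bits fixed
-/

set_option autoImplicit false

namespace Pool.Agent.W2helper26.DT

open Pool.Agent.NPC Finset H568R2 Pool.Agent.H676 Pool.Agent.H620R2.Gauge

/-- input number `j` of length `n`; it begins with two zeros -/
def inp (n j : ℕ) : List Bool := bitsOf n (4 * j)

theorem length_inp (n j : ℕ) : (inp n j).length = n := length_bitsOf _ _

theorem inp_inj {n u j j' : ℕ} (hn : u + 2 ≤ n) (hj : j < 2 ^ u) (hj' : j' < 2 ^ u)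
    (h : inp n j = inp n j') : j = j' := by
  have h1 : 2 ^ (u + 2) ≤ 2 ^ n := Nat.pow_le_pow_right (by norm_num) hn
  have h2 : 2 ^ (u + 2) = 4 * 2 ^ u := by ring
  have h3 := bitsOf_inj (n := n) (j := 4 * j) (j' := 4 * j') (by omega) (by omega) h
  omega

theorem inp_head {n j : ℕ} (hn : 2 ≤ n) : ∃ l, inp n j = false :: false :: l := by
  obtain ⟨m, rfl⟩ : ∃ m, n = m + 2 := ⟨n - 2, by omega⟩
  refine ⟨bitsOf m j, ?_⟩
  unfold inp
  rw [bitsOf, bitsOf]
  have h1 : (4 * j) % 2 = 0 := by omega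
  have h2 : (4 * j) / 2 = 2 * j := by omega
  have h3 : (2 * j) % 2 = 0 := by omega
  have h4 : (2 * j) / 2 = j := by omega
  rw [h1, h2, h3, h4]
  rfl

/-- The event: some advice of the right length gives the right answers on the inputs `inp n j`,
`j < 2 ^ u`. -/
def EvT (θ : Par) (n N u : ℕ) (a : Fin N → Bool) : Prop :=
  ∃ c ≤ θ.p'.eval n, ∃ h : List Bool, h.length = c ∧ ∀ j ∈ Finset.range (2 ^ u),
    QF (θ.m n c) (leaf θ.M N) θ.k true (pairBits (inp n j) h) a = par (blk N (inp n j)) a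

/-- the event for advice of length `c` -/
def EvTC (θ : Par) (n N u c : ℕ) (a : Fin N → Bool) : Prop :=
  ∃ h ∈ strsOf c, ∀ j ∈ Finset.range (2 ^ u),
    QF (θ.m n c) (leaf θ.M N) θ.k true (pairBits (inp n j) h) a = par (blk N (inp n j)) a

theorem QF_rs {I : Type*} (m : ℕ) (F : List Bool → (I → Bool) → Bool) (ρ : Restr I) :
    ∀ (k : ℕ) (b : Bool) (y : List Bool) (a : I → Bool),
      QF m (fun y => rs (F y) ρ) k b y a = QF m F k b y (ov ρ a) := by
  intro k
  induction k with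
  | zero => intro b y a; rfl
  | succ k ih =>
    intro b y a
    cases b with
    | true =>
      simp only [QF]
      rw [decide_eq_decide]
      exact exists_congr fun w => by rw [ih]
    | false =>
      simp only [QF]
      rw [decide_eq_decide]
      exact forall_congr' fun w => by rw [ih]

theorem par_ov {I : Type*} (ρ : Restr I) (B : Finset I) (h : ∀ i ∈ B, ρ i = none)
    (a : I → Bool) : par B (ov ρ a) = par B a := by
  unfold par
  congr 2
  refine congrArg Finset.card (Finset.filter_congr fun i hi => ?_)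
  unfold ov
  rw [h i hi]
  rfl

open Classical in
theorem evT_bound (θ : Par) {n N u : ℕ} (hP : θ.P.eval n ≤ 2 ^ (2 * u))
    (hu : 8 * (θ.k + 1) * u ≤ n) (hN : 2 ^ (2 * n + 1) ≤ N + 1) (hn : 3 ≤ n)
    (ρ : Restr (Fin N)) (hρ : ∀ j < 2 ^ u, ∀ i ∈ blk N (inp n j), ρ i = none) :
    Ex unif (fun a : Fin N → Bool => if EvT θ n N u (ov ρ a) then (1 : ℝ) else 0) ≤
      bnd θ.k θ.P n u := by
  set t : ℕ := 2 ^ (2 * u) with ht
  have ht1 : 1 ≤ t := Nat.one_le_two_pow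
  have htR : (1 : ℝ) ≤ (t : ℝ) := by exact_mod_cast ht1
  set q : ℝ := 1 / (24 * t) with hq
  have hq0 : 0 ≤ q := by positivity
  have hq1 : q ≤ 1 / 3 := by
    rw [hq, div_le_div_iff₀ (by positivity) (by norm_num)]
    linarith
  have hun : u + 2 ≤ n := by nlinarith [Nat.zero_le (θ.k * u)]
  have hE : θ.P.eval n = θ.p'.eval n + θ.L.eval n + 2 + θ.M.p.eval (θ.L.eval n) := by
    simp [Par.P, Polynomial.eval_comp]
  set K : ℕ := 2 ^ u with hK
  set r : ℕ := 2 ^ (3 * u) with hr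
  set s : ℕ := 2 ^ n / (2 ^ (3 * u) + 1) with hs
  have hKt : K * t = r := by
    rw [hK, ht, hr, ← pow_add]; congr 1; ring
  -- the bound for advice of length c
  have hc : ∀ c ∈ Finset.range (θ.p'.eval n + 1), Ex unif (fun a : Fin N → Bool =>
      if EvTC θ n N u c (ov ρ a) then (1 : ℝ) else 0) ≤
      θ.k * 2 ^ (θ.L.eval n + 2) * (1 / 2) ^ (t + 1) + K * ((r + 1) * (1 - q ^ θ.k) ^ s) +
        2 ^ θ.p'.eval n * (1 / 2) ^ K := by
    intro c hc
    rw [Finset.mem_range, Nat.lt_succ_iff] at hc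
    have hlen := θ.len_le hc
    have h1 := comb (I := Fin N) ht1 hq0 hq1 (θ.m n c) (fun y => rs (leaf θ.M N y) ρ) θ.k (2 * n + 1 + c) (by
      intro y hy
      have h2 := (dtr_out θ.M N y).rs (ρ := ρ)
      refine h2.mono ?_
      calc θ.M.p.eval y.length ≤ θ.M.p.eval (θ.L.eval n) := eval_mono _ (by omega)
        _ ≤ t := by omega) (Finset.range (2 ^ u)) (fun j => blk N (inp n j)) (by
      intro j hj j' hj' hne
      rw [Finset.mem_range] at hj hj'
      apply blk_disj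
      · rw [length_inp, length_inp]
      · intro h
        exact hne (inp_inj hun hj hj' h)) (strsOf c)
      (fun j h => pairBits (inp n j) h) (by
      intro j _ h hh
      rw [length_pairBits, length_inp]
      obtain ⟨i, _, rfl⟩ := Finset.mem_image.1 hh
      rw [length_bitsOf]) r s (by rw [Finset.card_range, ← hK]; exact hKt.le) (by
      intro j _
      rw [blk_card N _ (by rw [length_inp]; exact hN), length_inp]
      exact Nat.mul_div_le _ _)
    refine (Ex_mono unif_nonneg (fun a => ?_)).trans (h1.trans ?_)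
    · have heq : EvTC θ n N u c (ov ρ a) ↔ ∃ h ∈ strsOf c, ∀ j ∈ Finset.range (2 ^ u),
          QF (θ.m n c) (fun y => rs (leaf θ.M N y) ρ) θ.k true (pairBits (inp n j) h) a =
            par (blk N (inp n j)) a := by
        unfold EvTC
        refine exists_congr fun h => and_congr_right fun _ => forall_congr' fun j =>
          forall_congr' fun hj => ?_
        rw [QF_rs, par_ov ρ _ (hρ j (Finset.mem_range.1 hj))]
      by_cases h : EvTC θ n N u c (ov ρ a)
      · rw [if_pos h, if_pos (heq.1 h)]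
      · rw [if_neg h, if_neg (fun h' => h (heq.2 h'))]
    rw [Finset.card_range]
    have hqt : 12 * (t : ℝ) * q = 1 / 2 := by
      rw [hq]; field_simp; norm_num
    rw [hqt]
    have h3 : (2 : ℝ) ^ (2 * n + 1 + c + θ.k * (2 * θ.m n c + 1) + 2) ≤ 2 ^ (θ.L.eval n + 2) :=
      pow_le_pow_right₀ (by norm_num) (by omega)
    have h4 : ((strsOf c).card : ℝ) ≤ 2 ^ θ.p'.eval n := by
      have h5 : (strsOf c).card ≤ 2 ^ θ.p'.eval n :=
        (card_strsOf c).trans (Nat.pow_le_pow_right (by norm_num) hc)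
      exact_mod_cast h5
    have h6 : (0 : ℝ) ≤ (1 / 2) ^ (t + 1) := by positivity
    have h7 : (0 : ℝ) ≤ (1 / 2) ^ K := by positivity
    have h8 : (θ.k : ℝ) * 2 ^ (2 * n + 1 + c + θ.k * (2 * θ.m n c + 1) + 2) * (1 / 2) ^ (t + 1) ≤
        θ.k * 2 ^ (θ.L.eval n + 2) * (1 / 2) ^ (t + 1) :=
      mul_le_mul_of_nonneg_right (mul_le_mul_of_nonneg_left h3 (by positivity)) h6
    have h9 : ((strsOf c).card : ℝ) * (1 / 2) ^ 2 ^ u ≤ 2 ^ θ.p'.eval n * (1 / 2) ^ K :=
      mul_le_mul_of_nonneg_right h4 h7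
    have h10 : (((2 ^ u : ℕ) : ℝ)) = (K : ℝ) := rfl
    rw [h10]
    linarith
  -- union over c
  have hU : Ex unif (fun a : Fin N → Bool => if EvT θ n N u (ov ρ a) then (1 : ℝ) else 0) ≤
      ∑ c ∈ Finset.range (θ.p'.eval n + 1), Ex unif (fun a : Fin N → Bool =>
      if EvTC θ n N u c (ov ρ a) then (1 : ℝ) else 0) := by
    rw [← Ex_sum]
    apply Ex_mono unif_nonneg
    intro a
    by_cases hE : EvT θ n N u (ov ρ a)
    · rw [if_pos hE]
      obtain ⟨c, hc, h, hh, hj⟩ := hE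
      refine le_trans ?_ (Finset.single_le_sum (f := fun c =>
        if EvTC θ n N u c (ov ρ a) then (1 : ℝ) else 0) (fun c _ => by positivity)
        (Finset.mem_range.2 (Nat.lt_succ_of_le hc)))
      have hEC : EvTC θ n N u c (ov ρ a) := ⟨h, by rw [← hh]; exact mem_strsOf h, hj⟩
      show 1 ≤ (if EvTC θ n N u c (ov ρ a) then (1:ℝ) else 0)
      rw [if_pos hEC]
    · rw [if_neg hE]
      exact Finset.sum_nonneg fun c _ => by positivity
  refine hU.trans ((Finset.sum_le_sum hc).trans ?_)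
  rw [Finset.sum_const, Finset.card_range, nsmul_eq_mul]
  -- numeric
  have hp1 : ((θ.p'.eval n + 1 : ℕ) : ℝ) ≤ 2 ^ θ.p'.eval n := by
    have : θ.p'.eval n + 1 ≤ 2 ^ θ.p'.eval n := Nat.lt_two_pow_self
    exact_mod_cast this
  have hq1' : q ^ θ.k ≤ 1 := pow_le_one₀ hq0 (by linarith)
  have e1 : (0:ℝ) ≤ (K:ℝ) * ((r + 1) * (1 - q ^ θ.k) ^ s) := by
    have : (0:ℝ) ≤ (1 - q ^ θ.k) ^ s := pow_nonneg (by linarith) _
    positivity
  have hqb : q = 1 / (24 * 2 ^ (2 * u)) := by rw [hq, ht]; push_cast; rfl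
  have hrb : (r : ℝ) = 2 ^ (3 * u) := by rw [hr]; push_cast; rfl
  have hKb : (K : ℝ) = 2 ^ u := by rw [hK]; push_cast; rfl
  have hPexp : (2:ℝ) ^ θ.P.eval n = 2 ^ θ.p'.eval n * 2 ^ (θ.L.eval n + 2) *
      2 ^ θ.M.p.eval (θ.L.eval n) := by
    rw [hE, ← pow_add, ← pow_add]; congr 1
  have g1 : (1:ℝ) ≤ 2 ^ θ.M.p.eval (θ.L.eval n) := one_le_pow₀ (by norm_num)
  have g2 : (1:ℝ) ≤ 2 ^ (θ.L.eval n + 2) := one_le_pow₀ (by norm_num)
  have g3 : (0:ℝ) < 2 ^ θ.p'.eval n := by positivity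
  have g5 : θ.p'.eval n ≤ θ.L.eval n := by rw [θ.eval_L]; omega
  have g6 : (2:ℝ) ^ θ.p'.eval n ≤ 2 ^ (θ.L.eval n + 2) := pow_le_pow_right₀ (by norm_num) (by omega)
  -- the three terms
  have T1 : 2 ^ θ.p'.eval n * ((θ.k:ℝ) * 2 ^ (θ.L.eval n + 2) * (1 / 2) ^ (t + 1)) ≤
      2 ^ θ.P.eval n * (θ.k * (1 / 2) ^ (t + 1)) := by
    rw [hPexp]
    have h6 : (0 : ℝ) ≤ θ.k * (1 / 2) ^ (t + 1) := by positivity
    have : 2 ^ θ.p'.eval n * ((θ.k:ℝ) * 2 ^ (θ.L.eval n + 2) * (1 / 2) ^ (t + 1)) =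
      (2 ^ θ.p'.eval n * 2 ^ (θ.L.eval n + 2)) * (θ.k * (1 / 2) ^ (t + 1)) := by ring
    rw [this]
    apply mul_le_mul_of_nonneg_right _ h6
    exact le_mul_of_one_le_right (by positivity) g1
  have T2 : 2 ^ θ.p'.eval n * ((K:ℝ) * ((r + 1) * (1 - q ^ θ.k) ^ s)) ≤
      2 ^ θ.P.eval n * ((K:ℝ) * ((r + 1) * (1 - q ^ θ.k) ^ s)) := by
    apply mul_le_mul_of_nonneg_right _ e1
    rw [hPexp]
    have : (2:ℝ) ^ θ.p'.eval n * 1 * 1 ≤ 2 ^ θ.p'.eval n * 2 ^ (θ.L.eval n + 2) *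
        2 ^ θ.M.p.eval (θ.L.eval n) := by gcongr
    linarith
  have T3 : 2 ^ θ.p'.eval n * (2 ^ θ.p'.eval n * (1 / 2) ^ K) ≤
      2 ^ θ.P.eval n * ((1:ℝ) / 2) ^ K := by
    rw [← mul_assoc]
    apply mul_le_mul_of_nonneg_right _ (by positivity)
    rw [hPexp]
    have : (2:ℝ) ^ θ.p'.eval n * 2 ^ θ.p'.eval n * 1 ≤ 2 ^ θ.p'.eval n * 2 ^ (θ.L.eval n + 2) *
        2 ^ θ.M.p.eval (θ.L.eval n) := by gcongr
    linarith
  have hall : ((θ.p'.eval n + 1 : ℕ) : ℝ) * (θ.k * 2 ^ (θ.L.eval n + 2) * (1 / 2) ^ (t + 1) +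
      K * ((r + 1) * (1 - q ^ θ.k) ^ s) + 2 ^ θ.p'.eval n * (1 / 2) ^ K) ≤
      2 ^ θ.p'.eval n * (θ.k * 2 ^ (θ.L.eval n + 2) * (1 / 2) ^ (t + 1) +
      K * ((r + 1) * (1 - q ^ θ.k) ^ s) + 2 ^ θ.p'.eval n * (1 / 2) ^ K) := by
    apply mul_le_mul_of_nonneg_right hp1
    positivity
  refine hall.trans ?_
  have hb : bnd θ.k θ.P n u = 2 ^ θ.P.eval n * (θ.k * (1 / 2) ^ (t + 1)) +
      2 ^ θ.P.eval n * ((K:ℝ) * ((r + 1) * (1 - q ^ θ.k) ^ s)) +
      2 ^ θ.P.eval n * ((1:ℝ) / 2) ^ K := by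
    unfold bnd
    rw [hqb, hrb, hKb]
    ring
  rw [hb]
  linarith



theorem evT_of_easy (θ : Par) : ∃ Q : Polynomial ℕ, ∀ A ∈ Easy θ, ∀ n N u : ℕ,
    2 ^ (Q.eval n + 1) ≤ N → EvT θ n N u (pre N A) := by
  obtain ⟨qb, hqb⟩ := Alg.out_local θ.M
  refine ⟨qb.comp θ.L + 2 * Polynomial.X, ?_⟩
  rintro A ⟨V, h, hM, hh, hx⟩ n N u hN
  have hQ : (qb.comp θ.L + 2 * Polynomial.X).eval n = qb.eval (θ.L.eval n) + 2 * n := by
    simp [Polynomial.eval_comp]
  rw [hQ] at hN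
  have hV : ∀ y : List Bool, y.length ≤ θ.L.eval n →
      (V y = [true] ↔ leaf θ.M N y (pre N A) = true) := by
    intro y hy
    obtain ⟨Q, _, hQl, hQA⟩ := hqb A y
    have h1 : θ.M.out (orc N (pre N A)) y = θ.M.out A y := by
      apply hQA
      intro q hq
      apply orc_pre
      have h2 := idx_lt q
      have h3 : q.length ≤ qb.eval (θ.L.eval n) := (hQl q hq).trans (eval_mono _ hy)
      have h4 : 2 ^ (q.length + 1) ≤ 2 ^ (qb.eval (θ.L.eval n) + 2 * n + 1) :=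
        Nat.pow_le_pow_right (by norm_num) (by omega)
      omega
    unfold leaf
    rw [h1, hM y, decide_eq_true_eq, Option.some.injEq]
  refine ⟨(h n).length, hh n, h n, rfl, ?_⟩
  intro j _
  have hlen : (inp n j).length = n := length_inp n j
  have h1 := hx (inp n j)
  rw [hlen, length_pairBits, hlen] at h1
  have hN' : 2 ^ (2 * (inp n j).length + 1) ≤ N + 1 := by
    rw [hlen]
    have h4 : 2 ^ (2 * n + 1) ≤ 2 ^ (qb.eval (θ.L.eval n) + 2 * n + 1) :=
        Nat.pow_le_pow_right (by norm_num) (by omega)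
    omega
  have h2 := blk_par N A (inp n j) hN'
  have h3 := quant_iff (m := θ.m n (h n).length) (θ.L.eval n) hV θ.k true
    (pairBits (inp n j) (h n)) (by
      rw [length_pairBits, hlen]
      exact θ.len_le (hh n))
  have h4 : QF (θ.m n (h n).length) (leaf θ.M N) θ.k true (pairBits (inp n j) (h n))
      (pre N A) = true ↔ par (blk N (inp n j)) (pre N A) = true := by
    rw [h2, h1, ← h3]
    rfl
  cases hb : par (blk N (inp n j)) (pre N A) with
  | true => exact h4.2 hb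
  | false =>
    rw [← Bool.not_eq_true, h4, hb]
    simp

end Pool.Agent.W2helper26.DT
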