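import Pool.Agent.W2helper26.DT.COD
import Pool.Agent.W2helper26.DT.EVT
import Pool.Agent.H620R2.Gauge.M
import Pool.Agent.H620R2.Gauge.Q

/-!
# The oracle
-/

set_option autoImplicit false

namespace Pool.Agent.W2helper26.DT

open Pool.Agent.NPC Finset H568R2 Pool.Agent.H676 Pool.Agent.H620R2.Gauge Filter MeasureTheory
open Pool.Agent.H620R2.Gauge.CC

/-! ## Patches -/

/-- the bound for the number of the coded ones below `N` -/
def mm (s : ℕ → ℕ) (N : ℕ) : ℕ :=
  (Nat.log 2 N + 1) * ∑ n ∈ Finset.range (Nat.log 2 N + 1), s n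

open Classical in
/-- the sequences with few ones -/
noncomputable def TT (s : ℕ → ℕ) (N : ℕ) : Finset (Fin N → Bool) :=
  univ.filter (fun τ => (univ.filter (fun i => τ i = true)).card ≤ mm s N)

theorem card_TT (s : ℕ → ℕ) (N : ℕ) : (TT s N).card ≤ (N + 1) ^ mm s N := by
  classical
  have h1 : Fintype.card (Fin (mm s N) → Option (Fin N)) = (N + 1) ^ mm s N := by
    rw [Fintype.card_fun, Fintype.card_option, Fintype.card_fin, Fintype.card_fin]
  rw [← h1, ← Finset.card_univ]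
  refine Finset.card_le_card_of_surjOn
    (fun f : Fin (mm s N) → Option (Fin N) => fun i => decide (∃ j, f j = some i)) ?_
  intro τ hτ
  have hτ' : (univ.filter (fun i => τ i = true)).card ≤ mm s N := by
    have := hτ
    simp only [TT, Finset.coe_filter, Finset.mem_univ, true_and, Set.mem_ofPred_eq] at this
    exact this
  set S := univ.filter (fun i => τ i = true) with hS
  let e := S.equivFin
  refine ⟨fun j => if h : j.1 < S.card then some ((e.symm ⟨j.1, h⟩ : S) : Fin N) else none, by simp, ?_⟩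
  funext i
  cases hi : τ i with
  | true =>
    have hiS : i ∈ S := by rw [hS]; simp [hi]
    simp only [decide_eq_true_eq]
    refine ⟨⟨(e ⟨i, hiS⟩).1, lt_of_lt_of_le (e ⟨i, hiS⟩).2 hτ'⟩, ?_⟩
    rw [dif_pos (e ⟨i, hiS⟩).2]
    simp
  | false =>
    simp only [decide_eq_false_iff_not]
    rintro ⟨j, hj⟩
    by_cases h : j.1 < S.card
    · rw [dif_pos h] at hj
      have h2 : i ∈ S := by
        have h3 := (e.symm ⟨j.1, h⟩).2
        rw [Option.some.injEq] at hj
        rwa [hj] at h3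
      rw [hS, Finset.mem_filter, hi] at h2
      exact absurd h2.2 (by simp)
    · rw [dif_neg h] at hj
      cases hj

open Classical in
/-- the restriction which fixes the bits at the code strings -/
noncomputable def rho (R : ℕ → Polynomial ℕ) (N : ℕ) (τ : Fin N → Bool) : Restr (Fin N) :=
  fun i => if ∃ e x, str i = code R e x then some (τ i) else none

theorem blk_none {R : ℕ → Polynomial ℕ} (hR : ∀ e n, n + e + 1 ≤ (R e).eval n) {n N j : ℕ}
    (hn : 2 ≤ n) (τ : Fin N → Bool) (i : Fin N) (hi : i ∈ blk N (inp n j)) :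
    rho R N τ i = none := by
  classical
  unfold rho
  rw [if_neg]
  rintro ⟨e, x, hx⟩
  rw [blk, Finset.mem_filter] at hi
  obtain ⟨_, w, _, hw⟩ := hi
  obtain ⟨l, hl⟩ := inp_head (j := j) hn
  rw [hl] at hw
  rw [hx] at hw
  unfold code at hw
  cases e with
  | zero =>
    have h1 := hR 0 x.length
    obtain ⟨m, hm⟩ : ∃ m, (R 0).eval x.length = m + 1 := ⟨(R 0).eval x.length - 1, by omega⟩
    rw [hm] at hw
    simp [List.replicate_succ] at hw
  | succ e => simp [List.replicate_succ] at hw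

theorem pre_Phi {s : ℕ → ℕ} {R : ℕ → Polynomial ℕ} {Φ : Oracle → Oracle}
    (hR : ∀ e n, n + e + 1 ≤ (R e).eval n)
    (hΦ : ∀ B y, (∀ e x, y ≠ code R e x) → Φ B y = B y)
    (hc : ∀ B e n, {x : List Bool | Φ B (code R e x) = true ∧ x.length = n}.ncard ≤ s n)
    (B : Oracle) (N : ℕ) : ∃ τ ∈ TT s N, pre N (Φ B) = ov (rho R N τ) (pre N B) := by
  classical
  refine ⟨fun i => if ∃ e x, str i = code R e x then Φ B (str i) else false, ?_, ?_⟩
  · rw [TT, Finset.mem_filter]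
    refine ⟨Finset.mem_univ _, ?_⟩
    set S : Finset (Fin N) := univ.filter (fun i =>
      (if ∃ e x, str i = code R e x then Φ B (str i) else false) = true) with hS
    set ℓ := Nat.log 2 N with hℓ
    have hfin : ∀ e n, {x : List Bool | Φ B (code R e x) = true ∧ x.length = n}.Finite :=
      fun e n => finite_length _ n
    let U : Finset (ℕ × List Bool) := (Finset.range (ℓ + 1)).biUnion fun e =>
      (Finset.range (ℓ + 1)).biUnion fun n => ((hfin e n).toFinset).image (fun x => (e, x))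
    have hU : U.card ≤ mm s N := by
      refine Finset.card_biUnion_le.trans ?_
      unfold mm
      rw [← hℓ]
      calc ∑ e ∈ Finset.range (ℓ + 1), ((Finset.range (ℓ + 1)).biUnion fun n =>
            ((hfin e n).toFinset).image (fun x => (e, x))).card
          ≤ ∑ _e ∈ Finset.range (ℓ + 1), ∑ n ∈ Finset.range (ℓ + 1), s n := by
            refine Finset.sum_le_sum fun e _ => Finset.card_biUnion_le.trans ?_
            refine Finset.sum_le_sum fun n _ => Finset.card_image_le.trans ?_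
            rw [← Set.ncard_eq_toFinset_card _ (hfin e n)]
            exact hc B e n
        _ = (ℓ + 1) * ∑ n ∈ Finset.range (ℓ + 1), s n := by
            rw [Finset.sum_const, Finset.card_range, smul_eq_mul]
    refine le_trans ?_ hU
    have hex : ∀ i ∈ S, ∃ e x, str i = code R e x ∧ Φ B (str i) = true := by
      intro i hi
      rw [hS, Finset.mem_filter] at hi
      by_cases h : ∃ e x, str i = code R e x
      · obtain ⟨e, x, hx⟩ := h
        have h2 := hi.2
        rw [if_pos ⟨e, x, hx⟩] at h2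
        exact ⟨e, x, hx, h2⟩
      · have h2 := hi.2
        rw [if_neg h] at h2
        exact absurd h2 (by simp)
    choose! ee xx hx hv using hex
    refine Finset.card_le_card_of_injOn (fun i => (ee i, xx i)) ?_ ?_
    · intro i hi
      have h1 := hx i hi
      have h2 := hv i hi
      have h3 := lt_length_code R (ee i) (xx i)
      rw [← h1, length_str] at h3
      have h4 : Nat.log 2 ((i : ℕ) + 1) ≤ ℓ := Nat.log_mono_right (by omega)
      have h5 := hR (ee i) (xx i).length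
      simp only [U, Finset.coe_biUnion, Finset.mem_coe, Set.mem_iUnion, Finset.mem_range,
        Finset.coe_image, Set.mem_image]
      refine ⟨ee i, by omega, (xx i).length, by omega, xx i, ?_, rfl⟩
      refine (Set.Finite.mem_toFinset _).2 ⟨?_, rfl⟩
      rw [← h1]
      exact h2
    · intro i hi j hj hij
      have h1 := hx i hi
      have h2 := hx j hj
      simp only [Prod.mk.injEq] at hij
      rw [hij.1, hij.2, ← h2] at h1
      exact Fin.ext (str_injective h1)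
  · funext i
    unfold ov rho pre
    by_cases h : ∃ e x, str i = code R e x
    · simp [h]
    · simp only [if_neg h, Option.getD_none]
      exact hΦ B _ fun e x hx => h ⟨e, x, hx⟩

/-! ## Growth -/

/-- the logarithm of the number of patches -/
noncomputable def ff (s : ℕ → ℕ) (N : ℕ) : ℝ := mm s N * Real.logb 2 (N + 1)

theorem card_TT_real (s : ℕ → ℕ) (N : ℕ) : ((TT s N).card : ℝ) ≤ 2 ^ ff s N := by
  have h1 : ((TT s N).card : ℝ) ≤ ((N + 1) ^ mm s N : ℕ) := by exact_mod_cast card_TT s N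
  refine h1.trans (le_of_eq ?_)
  unfold ff
  rw [mul_comm, Real.rpow_mul (by norm_num), Real.rpow_logb (by norm_num) (by norm_num)
    (by positivity), Real.rpow_natCast]
  push_cast
  rfl

theorem growth_aux (ε : ℝ) (hε : 0 < ε) (K : ℝ) : ∀ᶠ ℓ : ℕ in atTop,
    ((ℓ : ℝ) + 1) ^ 3 * (K + 2 ^ ((ℓ : ℝ) ^ (ε / 2))) ≤ 2 ^ ((ℓ : ℝ) ^ ε) := by
  have hδ : 0 < ε / 2 := by positivity
  have hl2 : 0 < Real.log 2 := Real.log_pos (by norm_num)
  have hy : Tendsto (fun ℓ : ℕ => ((ℓ : ℝ)) ^ (ε / 2)) atTop atTop :=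
    (tendsto_rpow_atTop hδ).comp tendsto_natCast_atTop_atTop
  -- `ℓ ^ 4 ≤ 2 ^ y`
  have h1 : ∀ᶠ ℓ : ℕ in atTop, (ℓ : ℝ) ^ 4 ≤ 2 ^ ((ℓ : ℝ) ^ (ε / 2)) := by
    have h2 := (isLittleO_rpow_exp_pos_mul_atTop (4 / (ε / 2)) hl2).bound (c := 1) one_pos
    have h3 := hy.eventually h2
    filter_upwards [h3] with ℓ hℓ
    rw [one_mul, Real.norm_of_nonneg (by positivity), Real.norm_of_nonneg (by positivity)] at hℓ
    rw [← Real.rpow_mul (by positivity)] at hℓ
    have h4 : ε / 2 * (4 / (ε / 2)) = 4 := by field_simp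
    rw [h4] at hℓ
    have h5 : (ℓ : ℝ) ^ (4 : ℝ) = (ℓ : ℝ) ^ (4 : ℕ) := by
      rw [← Real.rpow_natCast]; norm_num
    rw [h5] at hℓ
    refine hℓ.trans (le_of_eq ?_)
    rw [Real.rpow_def_of_pos (by norm_num : (0 : ℝ) < 2)]
  have h6 : ∀ᶠ ℓ : ℕ in atTop, |K| ≤ 2 ^ ((ℓ : ℝ) ^ (ε / 2)) := by
    have h7 : Tendsto (fun y : ℝ => (2 : ℝ) ^ y) atTop atTop :=
      tendsto_rpow_atTop_of_base_gt_one 2 (by norm_num)
    exact (h7.comp hy).eventually (eventually_ge_atTop |K|)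
  filter_upwards [h1, h6, hy.eventually (eventually_ge_atTop (3 : ℝ)), eventually_ge_atTop 16]
    with ℓ h1 h6 h8 h9
  set y : ℝ := (ℓ : ℝ) ^ (ε / 2) with hyd
  have hℓ : (16 : ℝ) ≤ ℓ := by exact_mod_cast h9
  have h10 : (ℓ : ℝ) ^ ε = y ^ 2 := by
    rw [hyd, ← Real.rpow_natCast, ← Real.rpow_mul (by positivity)]
    congr 1
    push_cast
    ring
  have h11 : ((ℓ : ℝ) + 1) ^ 3 * 2 ≤ (ℓ : ℝ) ^ 4 := by nlinarith [sq_nonneg ((ℓ : ℝ)), mul_pos (by linarith : (0:ℝ) < ℓ) (by linarith : (0:ℝ) < ℓ), pow_pos (by linarith : (0:ℝ) < ℓ) 3]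
  have h12 : K + 2 ^ y ≤ 2 * 2 ^ y := by
    have := le_abs_self K
    linarith
  have hp : (0 : ℝ) < 2 ^ y := by positivity
  calc ((ℓ : ℝ) + 1) ^ 3 * (K + 2 ^ y) ≤ ((ℓ : ℝ) + 1) ^ 3 * (2 * 2 ^ y) :=
        mul_le_mul_of_nonneg_left h12 (by positivity)
    _ = (((ℓ : ℝ) + 1) ^ 3 * 2) * 2 ^ y := by ring
    _ ≤ 2 ^ y * 2 ^ y := mul_le_mul_of_nonneg_right (h11.trans h1) hp.le
    _ = 2 ^ (2 * y) := by rw [← Real.rpow_add (by norm_num)]; congr 1; ring
    _ ≤ 2 ^ (y ^ 2) := by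
        apply Real.rpow_le_rpow_of_exponent_le (by norm_num)
        nlinarith
    _ = _ := by rw [h10]

theorem growth (s : ℕ → ℕ) (hs : ∀ ε : ℝ, 0 < ε → ∀ᶠ n : ℕ in atTop, (s n : ℝ) ≤ 2 ^ ((n : ℝ) ^ ε))
    (ε : ℝ) (hε : 0 < ε) : ∀ᶠ N : ℕ in atTop, ff s N ≤ 2 ^ (Real.logb 2 N) ^ ε := by
  obtain ⟨n₀, hn₀⟩ := eventually_atTop.1 (hs (ε / 2) (by positivity))
  set K : ℝ := ∑ n ∈ Finset.range n₀, (s n : ℝ) with hK
  have hK0 : 0 ≤ K := Finset.sum_nonneg fun _ _ => Nat.cast_nonneg _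
  have hlog : Tendsto (fun N : ℕ => Nat.log 2 N) atTop atTop := by
    rw [tendsto_atTop_atTop]
    intro b
    refine ⟨2 ^ b, fun N hN => ?_⟩
    have := Nat.log_mono_right (b := 2) hN
    rwa [Nat.log_pow (by norm_num)] at this
  filter_upwards [hlog.eventually (growth_aux ε hε K), eventually_ge_atTop 2] with N hN hN2
  set ℓ := Nat.log 2 N with hℓ
  have hsn : ∀ n ∈ Finset.range (ℓ + 1), (s n : ℝ) ≤ K + 2 ^ ((ℓ : ℝ) ^ (ε / 2)) := by
    intro n hn
    rw [Finset.mem_range] at hn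
    by_cases h : n < n₀
    · have h1 : (s n : ℝ) ≤ K := by
        rw [hK]
        exact Finset.single_le_sum (f := fun n => (s n : ℝ)) (fun _ _ => Nat.cast_nonneg _)
          (Finset.mem_range.2 h)
      have : (0 : ℝ) ≤ 2 ^ ((ℓ : ℝ) ^ (ε / 2)) := by positivity
      linarith
    · have h1 := hn₀ n (by omega)
      have h2 : (2 : ℝ) ^ ((n : ℝ) ^ (ε / 2)) ≤ 2 ^ ((ℓ : ℝ) ^ (ε / 2)) := by
        apply Real.rpow_le_rpow_of_exponent_le (by norm_num)
        apply Real.rpow_le_rpow (by positivity) _ (by positivity)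
        exact_mod_cast (by omega : n ≤ ℓ)
      linarith
  have hmm : (mm s N : ℝ) ≤ ((ℓ : ℝ) + 1) ^ 2 * (K + 2 ^ ((ℓ : ℝ) ^ (ε / 2))) := by
    unfold mm
    rw [← hℓ]
    push_cast
    have h1 := Finset.sum_le_sum hsn
    rw [Finset.sum_const, Finset.card_range, nsmul_eq_mul] at h1
    push_cast at h1
    have h2 : (0 : ℝ) ≤ (ℓ : ℝ) + 1 := by positivity
    calc ((ℓ : ℝ) + 1) * ∑ n ∈ Finset.range (ℓ + 1), (s n : ℝ)
        ≤ ((ℓ : ℝ) + 1) * (((ℓ : ℝ) + 1) * (K + 2 ^ ((ℓ : ℝ) ^ (ε / 2)))) :=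
          mul_le_mul_of_nonneg_left h1 h2
      _ = _ := by ring
  have hlN : Real.logb 2 (N + 1) ≤ (ℓ : ℝ) + 1 := by
    have h1 : N + 1 ≤ 2 ^ (ℓ + 1) := Nat.lt_pow_succ_log_self (by norm_num) N
    have h2 : ((N : ℝ) + 1) ≤ 2 ^ (ℓ + 1) := by exact_mod_cast h1
    rw [Real.logb_le_iff_le_rpow (by norm_num) (by positivity)]
    refine h2.trans (le_of_eq ?_)
    rw [← Real.rpow_natCast]
    push_cast
    rfl
  have hl0 : (0 : ℝ) ≤ Real.logb 2 (N + 1) := Real.logb_nonneg (by norm_num) (by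
    have : (0 : ℝ) ≤ N := Nat.cast_nonneg N
    linarith)
  have hℓN : (ℓ : ℝ) ≤ Real.logb 2 N := by
    rw [Real.le_logb_iff_rpow_le (by norm_num) (by positivity)]
    have h1 : 2 ^ ℓ ≤ N := Nat.pow_log_le_self 2 (by omega)
    rw [Real.rpow_natCast]
    exact_mod_cast h1
  have hpos : (0 : ℝ) ≤ K + 2 ^ ((ℓ : ℝ) ^ (ε / 2)) := by positivity
  calc ff s N = mm s N * Real.logb 2 (N + 1) := rfl
    _ ≤ (((ℓ : ℝ) + 1) ^ 2 * (K + 2 ^ ((ℓ : ℝ) ^ (ε / 2)))) * ((ℓ : ℝ) + 1) :=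
        mul_le_mul hmm hlN hl0 (by positivity)
    _ = ((ℓ : ℝ) + 1) ^ 3 * (K + 2 ^ ((ℓ : ℝ) ^ (ε / 2))) := by ring
    _ ≤ 2 ^ ((ℓ : ℝ) ^ ε) := hN
    _ ≤ 2 ^ (Real.logb 2 N) ^ ε := by
        apply Real.rpow_le_rpow_of_exponent_le (by norm_num)
        exact Real.rpow_le_rpow (by positivity) hℓN hε.le

/-! ## Covers -/

theorem cover (s : ℕ → ℕ) (hs : ∀ ε : ℝ, 0 < ε → ∀ᶠ n : ℕ in atTop, (s n : ℝ) ≤ 2 ^ ((n : ℝ) ^ ε))
    {R : ℕ → Polynomial ℕ} {Φ : Oracle → Oracle} (hR : ∀ e n, n + e + 1 ≤ (R e).eval n)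
    (hΦ : ∀ B y, (∀ e x, y ≠ code R e x) → Φ B y = B y)
    (hc : ∀ B e n, {x : List Bool | Φ B (code R e x) = true ∧ x.length = n}.ncard ≤ s n)
    (θ : Par) (δ : ℝ) (hδ : 0 < δ) :
    ∃ S : Set (List Bool), (∀ B, Φ B ∈ Easy θ → ∃ σ ∈ S, Extends B σ) ∧
      ∑' σ : S, ENNReal.ofReal (2 ^ (0 - (σ.1.length : ℝ))) ≤ ENNReal.ofReal δ := by
  classical
  obtain ⟨Q, hQ⟩ := evT_of_easy θ
  obtain ⟨n, N, u, hn, hP, hu, hN, hb⟩ := asym θ.k θ.P (Q + 2 * Polynomial.X) (ff s)
    (fun ε hε => (growth s hs ε hε).frequently) δ hδ 3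
  have hQe : (Q + 2 * Polynomial.X).eval n = Q.eval n + 2 * n := by simp
  rw [hQe] at hN
  have hN1 : 2 ^ (Q.eval n + 1) ≤ N :=
    le_trans (Nat.pow_le_pow_right (by norm_num) (by omega)) hN
  have hN2 : 2 ^ (2 * n + 1) ≤ N + 1 :=
    le_trans (Nat.pow_le_pow_right (by norm_num) (by omega)) (hN.trans (Nat.le_succ _))
  have hev : ∀ τ : Fin N → Bool, Ex unif (fun a : Fin N → Bool =>
      if EvT θ n N u (ov (rho R N τ) a) then (1 : ℝ) else 0) ≤ bnd θ.k θ.P n u := fun τ =>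
    evT_bound θ hP hu hN2 hn _ fun j _ i hi => blk_none hR (by omega) τ i hi
  set E : (Fin N → Bool) → Prop := fun a => ∃ τ ∈ TT s N, EvT θ n N u (ov (rho R N τ) a) with hE
  have hsum : Ex unif (fun a : Fin N → Bool => if E a then (1 : ℝ) else 0) ≤
      (TT s N).card * bnd θ.k θ.P n u := by
    have h1 : Ex unif (fun a : Fin N → Bool => if E a then (1 : ℝ) else 0) ≤
        Ex unif (fun a : Fin N → Bool => ∑ τ ∈ TT s N,
          if EvT θ n N u (ov (rho R N τ) a) then (1 : ℝ) else 0) := by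
      apply Ex_mono unif_nonneg
      intro a
      by_cases h : E a
      · rw [if_pos h]
        obtain ⟨τ, hτ, h2⟩ := h
        refine le_trans ?_ (Finset.single_le_sum (f := fun τ =>
          if EvT θ n N u (ov (rho R N τ) a) then (1 : ℝ) else 0)
          (fun τ _ => by positivity) hτ)
        show 1 ≤ (if EvT θ n N u (ov (rho R N τ) a) then (1 : ℝ) else 0)
        rw [if_pos h2]
      · rw [if_neg h]
        exact Finset.sum_nonneg fun τ _ => by positivity
    rw [Ex_sum] at h1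
    refine h1.trans ((Finset.sum_le_sum fun τ _ => hev τ).trans ?_)
    rw [Finset.sum_const, nsmul_eq_mul]
  refine ⟨(fun a : Fin N → Bool => List.ofFn a) '' {a | E a}, ?_, ?_⟩
  · intro B hB
    obtain ⟨τ, hτ, hpre⟩ := pre_Phi hR hΦ hc B N
    have h1 := hQ (Φ B) hB n N u hN1
    rw [hpre] at h1
    refine ⟨List.ofFn (pre N B), ⟨pre N B, ⟨τ, hτ, h1⟩, rfl⟩, ?_⟩
    intro i hi
    rw [List.getElem_ofFn]
    rfl
  · have hinj : Set.InjOn (fun a : Fin N → Bool => List.ofFn a) {a | E a} :=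
      fun a _ b _ h => List.ofFn_injective h
    rw [tsum_image (fun σ : List Bool => ENNReal.ofReal (2 ^ (0 - (σ.length : ℝ)))) hinj]
    simp only [List.length_ofFn]
    rw [tsum_fintype, Finset.sum_const, nsmul_eq_mul, Finset.card_univ]
    rw [← ENNReal.ofReal_natCast, ← ENNReal.ofReal_mul (by positivity)]
    apply ENNReal.ofReal_le_ofReal
    have h1 : Fintype.card {a : Fin N → Bool | E a} =
        (univ.filter (fun a : Fin N → Bool => E a)).card := by
      rw [← Fintype.card_subtype]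
      rfl
    have h2 := card_of_Ex (fun a : Fin N → Bool => E a)
    have h2' : ((Fintype.card {a : Fin N → Bool | E a} : ℕ) : ℝ) * 2 ^ (-(N : ℝ)) =
        Ex unif (fun a : Fin N → Bool => if E a then (1 : ℝ) else 0) := by
      rw [h1]
      convert h2 using 4
      ext a
      simp only [Finset.mem_filter]
    rw [zero_sub, h2']
    have hb0 : 0 ≤ bnd θ.k θ.P n u := by
      refine le_trans ?_ (hev (fun _ => false))
      have h3 := Ex_mono unif_nonneg (F := fun _ : Fin N → Bool => (0 : ℝ))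
        (G := fun a : Fin N → Bool =>
          if EvT θ n N u (ov (rho R N (fun _ => false)) a) then (1 : ℝ) else 0)
        (fun a => by positivity)
      rwa [Ex_const unif_sum 0] at h3
    calc Ex unif (fun a : Fin N → Bool => if E a then (1 : ℝ) else 0)
        ≤ (TT s N).card * bnd θ.k θ.P n u := hsum
      _ ≤ 2 ^ ff s N * bnd θ.k θ.P n u :=
          mul_le_mul_of_nonneg_right (card_TT_real s N) hb0
      _ ≤ δ := by rw [mul_comm]; exact hb

open Classical in
/-- The oracles relative to which the sparse languages of `PSPACE` are in `P` but the parity language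
is not in the polynomial hierarchy with advice, are many. -/
theorem not_null_sparse (s : ℕ → ℕ)
    (hs : ∀ ε : ℝ, 0 < ε → ∀ᶠ n : ℕ in atTop, (s n : ℝ) ≤ 2 ^ ((n : ℝ) ^ ε))
    (f : ℕ → ℝ) (ε : ℝ) (hε : 0 < ε)
    (hf : ∀ᶠ N : ℕ in Filter.atTop, 2 ^ (Real.logb 2 N) ^ ε < f N) :
    ¬ Null f {A | (∀ L, IsPSPACE A L → IsP A {x | x ∈ L ∧ census L x.length ≤ s x.length}) ∧
      ¬ IsPHpoly A (parLang A)} := by
  intro hnull
  obtain ⟨K, hK⟩ := exists_nat_gt (max 1 (1 / ε))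
  have hK1 : 1 ≤ K := by
    have h1 : (1 : ℝ) < K := (le_max_left _ _).trans_lt hK
    exact_mod_cast h1.le
  have hK' : 1 < ε * K := by
    have h1 : 1 / ε < K := (le_max_right _ _).trans_lt hK
    rw [div_lt_iff₀ hε] at h1
    linarith
  obtain ⟨R, Φ, hR, hΦ, hc, hP⟩ := exists_coding_sparse s K
  have hR' : ∀ e n, n + e + 1 ≤ (R e).eval n := fun e n =>
    (Nat.le_self_pow (by omega) _).trans (hR e n)
  have hsp := sparse R hR hε hK'
  obtain ⟨N₀, hN₀⟩ := Filter.eventually_atTop.1 (hf.and hsp)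
  -- the bound for the short sequences
  obtain ⟨δ, hδ, hδ1, hδ2⟩ : ∃ δ : ℝ, 0 < δ ∧ δ ≤ 1 / 4 ∧
      ∀ N < N₀, δ < 2 ^ (f N - N) := by
    have h1 : ∀ M : ℕ, ∃ δ : ℝ, 0 < δ ∧ δ ≤ 1 / 4 ∧ ∀ N < M, δ < 2 ^ (f N - N) := by
      intro M
      induction M with
      | zero => exact ⟨1 / 4, by norm_num, by norm_num, fun N hN => by omega⟩
      | succ M ih =>
        obtain ⟨δ, h1, h2, h3⟩ := ih
        have h4 : (0 : ℝ) < 2 ^ (f M - M) := Real.rpow_pos_of_pos (by norm_num) _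
        refine ⟨min δ (2 ^ (f M - M) / 2), lt_min h1 (by positivity),
          (min_le_left _ _).trans h2, ?_⟩
        intro N hN
        rcases Nat.lt_succ_iff_lt_or_eq.1 hN with h | h
        · exact (min_le_left _ _).trans_lt (h3 N h)
        · subst h
          exact (min_le_right _ _).trans_lt (by linarith)
    exact h1 N₀
  obtain ⟨S, hS, hsum⟩ := hnull δ hδ
  obtain ⟨δ', hδ', hsum'⟩ := ENNReal.exists_pos_sum_of_countable (ε := 2⁻¹)
    (by norm_num) Par
  choose S' hS' hSs' using fun θ : Par =>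
    cover s hs hR' hΦ hc θ (δ' θ) (by exact_mod_cast hδ' θ)
  -- everything is covered
  have hcov : (Set.univ : Set Oracle) ⊆ (⋃ σ : S, {B | Extends (Φ B) σ.1}) ∪
      ⋃ θ : Par, ⋃ σ : S' θ, {B | Extends B σ.1} := by
    intro B _
    by_cases h : IsPHpoly (Φ B) (parLang (Φ B))
    · right
      obtain ⟨θ, hθ⟩ := mem_easy_of_phpoly h
      obtain ⟨σ, hσ, hE⟩ := hS' θ B hθ
      exact Set.mem_iUnion.2 ⟨θ, Set.mem_iUnion.2 ⟨⟨σ, hσ⟩, hE⟩⟩
    · left
      obtain ⟨σ, hσ, hE⟩ := hS (Φ B) ⟨fun L hL => hP B L hL, h⟩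
      exact Set.mem_iUnion.2 ⟨⟨σ, hσ⟩, hE⟩
  have h1 : ranO (⋃ σ : S, {B | Extends (Φ B) σ.1}) ≤ ENNReal.ofReal δ := by
    refine (measure_iUnion_le _).trans (le_trans ?_ hsum)
    refine ENNReal.tsum_le_tsum fun σ => ?_
    refine (ranO_extends Φ {y | ∃ e x, y = code R e x} (fun B y hy => hΦ B y (by
      intro e x h
      exact hy ⟨e, x, h⟩)) σ.1).trans ?_
    have hlen : N₀ ≤ σ.1.length := by
      by_contra hlt
      push Not at hlt
      have h1 := hδ2 _ hlt
      have h2 : ENNReal.ofReal (2 ^ (f σ.1.length - σ.1.length)) ≤ ENNReal.ofReal δ :=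
        (ENNReal.le_tsum σ).trans hsum
      have h3 := (ENNReal.ofReal_le_ofReal_iff hδ.le).1 h2
      linarith
    obtain ⟨h1, h2⟩ := hN₀ _ hlen
    apply ENNReal.ofReal_le_ofReal
    apply Real.rpow_le_rpow_of_exponent_le (by norm_num)
    have h3 : (((Finset.range σ.1.length).filter
        (fun i => str i ∈ {y | ∃ e x, y = code R e x})).card : ℝ) ≤
        2 ^ (Real.logb 2 σ.1.length) ^ ε := by
      refine le_trans (le_of_eq ?_) h2
      congr 2
    linarith
  have h2 : ranO (⋃ θ : Par, ⋃ σ : S' θ, {B | Extends B σ.1}) ≤ 2⁻¹ := by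
    refine (measure_iUnion_le _).trans (le_trans ?_ hsum'.le)
    refine ENNReal.tsum_le_tsum fun θ => ?_
    refine (measure_iUnion_le _).trans (le_trans ?_ (le_trans (hSs' θ) (le_of_eq
      ENNReal.ofReal_coe_nnreal)))
    refine ENNReal.tsum_le_tsum fun σ => ?_
    refine (ranO_extends (fun B => B) ∅ (fun B y _ => rfl) σ.1).trans ?_
    simp
  have h3 : (1 : ENNReal) ≤ ENNReal.ofReal δ + 2⁻¹ := by
    calc (1 : ENNReal) = ranO Set.univ := measure_univ.symm
      _ ≤ _ := measure_mono hcov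
      _ ≤ _ := measure_union_le _ _
      _ ≤ _ := add_le_add h1 h2
  have h4 : ENNReal.ofReal δ + 2⁻¹ ≤ ENNReal.ofReal (3 / 4) := by
    have h5 : (2⁻¹ : ENNReal) = ENNReal.ofReal (1 / 2) := by
      rw [one_div, ENNReal.ofReal_inv_of_pos (by norm_num)]
      norm_num
    rw [h5, ← ENNReal.ofReal_add hδ.le (by norm_num)]
    exact ENNReal.ofReal_le_ofReal (by linarith)
  have h6 := h3.trans h4
  rw [← ENNReal.ofReal_one, ENNReal.ofReal_le_ofReal_iff (by norm_num)] at h6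
  norm_num at h6

end Pool.Agent.W2helper26.DT
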